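import Pool.Agent.Helper56_Tow.Tower

/-!
# Infinite chains of normal subgroups

A group with an infinite strictly ascending or descending sequence of normal subgroups has a
left-invariant syndetic submeasure.
-/

set_option autoImplicit false

open scoped BigOperators Pointwise Topology

namespace Pool.Agent.Helper56_Tow

open Pool.Agent.Helper34_Synd

section minimal

variable {G Y : Type*} [Group G] [TopologicalSpace Y] [CompactSpace Y] [T2Space Y]
  [MulAction G Y] [ContinuousConstSMul G Y]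

omit [T2Space Y] [ContinuousConstSMul G Y] in
/-- Existence of minimal closed invariant sets. -/
theorem exists_minimal_sub (Z : Set Y) (hZc : IsClosed Z) (hZn : Z.Nonempty)
    (hZi : ∀ (g : G), ∀ y ∈ Z, g • y ∈ Z) :
    ∃ M ⊆ Z, IsClosed M ∧ M.Nonempty ∧ (∀ (g : G), ∀ y ∈ M, g • y ∈ M) ∧
      ∀ M' ⊆ M, IsClosed M' → M'.Nonempty → (∀ (g : G), ∀ y ∈ M', g • y ∈ M') → M' = M := by
  let S : Set (Set Y) := {M | M ⊆ Z ∧ IsClosed M ∧ M.Nonempty ∧ ∀ (g : G), ∀ y ∈ M, g • y ∈ M}
  have hchain : ∀ c ⊆ S, IsChain (· ⊆ ·) c → c.Nonempty → ∃ lb ∈ S, ∀ s ∈ c, lb ⊆ s := by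
    intro c hc hch hcn
    have hne : (⋂₀ c).Nonempty := by
      have : Nonempty c := hcn.to_subtype
      apply IsCompact.nonempty_sInter_of_directed_nonempty_isCompact_isClosed
      · intro s hs t ht
        rcases hch.total hs ht with h | h
        · exact ⟨s, hs, subset_rfl, h⟩
        · exact ⟨t, ht, h, subset_rfl⟩
      · exact fun s hs => (hc hs).2.2.1
      · exact fun s hs => (hc hs).2.1.isCompact
      · exact fun s hs => (hc hs).2.1
    refine ⟨⋂₀ c, ⟨?_, ?_, hne, ?_⟩, fun s hs => Set.sInter_subset_of_mem hs⟩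
    · obtain ⟨s, hs⟩ := hcn
      exact (Set.sInter_subset_of_mem hs).trans (hc hs).1
    · exact isClosed_sInter fun s hs => (hc hs).2.1
    · intro g y hy s hs
      exact (hc hs).2.2.2 g y (hy s hs)
  obtain ⟨M, hMZ, hM⟩ := zorn_superset_nonempty S hchain Z ⟨subset_rfl, hZc, hZn, hZi⟩
  refine ⟨M, hMZ, hM.prop.2.1, hM.prop.2.2.1, hM.prop.2.2.2, ?_⟩
  intro M' hM' h1 h2 h3
  exact Set.Subset.antisymm hM' (hM.le_of_le ⟨hM'.trans hM.prop.1, h1, h2, h3⟩ hM')

end minimal

section configurations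

/-- Sequences of subsets of the group. -/
def Cfg (G : Type*) : Type _ := ℕ → G → Bool

variable {G : Type*}

instance : TopologicalSpace (Cfg G) := inferInstanceAs (TopologicalSpace (ℕ → G → Bool))
instance : CompactSpace (Cfg G) := inferInstanceAs (CompactSpace (ℕ → G → Bool))
instance : T2Space (Cfg G) := inferInstanceAs (T2Space (ℕ → G → Bool))

theorem continuous_coord (i : ℕ) (q : G) : Continuous fun y : Cfg G => y i q :=
  (continuous_apply q).comp (continuous_apply (A := fun _ : ℕ => G → Bool) i)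

variable [Group G]

instance : MulAction G (Cfg G) where
  smul g y := fun i q => y i (q * g)
  one_smul y := by
    funext i q
    change y i (q * 1) = y i q
    rw [mul_one]
  mul_smul g h y := by
    funext i q
    change y i (q * (g * h)) = y i (q * g * h)
    rw [mul_assoc]

theorem smul_apply (g : G) (y : Cfg G) (i : ℕ) (q : G) : (g • y) i q = y i (q * g) := rfl

instance : ContinuousConstSMul G (Cfg G) where
  continuous_const_smul g := by
    refine continuous_pi fun i => continuous_pi fun q => ?_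
    exact continuous_coord i (q * g)

/-- A maximal `A`-invariant set `I` that is disjoint from `n I`. -/
theorem exists_indep (A : Subgroup G) (hA : A.Normal) (n : G) (hn : n ∉ A) :
    ∃ I : Set G, (∀ a ∈ A, ∀ q, a * q ∈ I ↔ q ∈ I) ∧ (∀ q, ¬ (q ∈ I ∧ n * q ∈ I)) ∧
      ∀ q, q ∈ I ∨ n * q ∈ I ∨ n⁻¹ * q ∈ I := by
  let S : Set (Set G) := {I | (∀ a ∈ A, ∀ q, a * q ∈ I ↔ q ∈ I) ∧ ∀ q, ¬ (q ∈ I ∧ n * q ∈ I)}
  obtain ⟨I, hI⟩ := zorn_subset S (by
    intro c hc hch
    refine ⟨⋃₀ c, ⟨?_, ?_⟩, fun s hs => Set.subset_sUnion_of_mem hs⟩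
    · intro a ha q
      constructor
      · rintro ⟨s, hs, h⟩
        exact ⟨s, hs, ((hc hs).1 a ha q).1 h⟩
      · rintro ⟨s, hs, h⟩
        exact ⟨s, hs, ((hc hs).1 a ha q).2 h⟩
    · rintro q ⟨⟨s, hs, h⟩, ⟨s', hs', h'⟩⟩
      rcases hch.total hs hs' with hss | hss
      · exact (hc hs').2 q ⟨hss h, h'⟩
      · exact (hc hs).2 q ⟨h, hss h'⟩)
  have hI1 := hI.prop.1
  have hI2 := hI.prop.2
  refine ⟨I, hI1, hI2, fun q => ?_⟩
  by_contra hcon
  push Not at hcon
  obtain ⟨hq, hnq, hnq'⟩ := hcon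
  let I' : Set G := I ∪ {z | ∃ a ∈ A, z = a * q}
  have hI' : I' ∈ S := by
    refine ⟨?_, ?_⟩
    · intro a ha z
      constructor
      · rintro (h | ⟨b, hb, h⟩)
        · exact Or.inl ((hI1 a ha z).1 h)
        · refine Or.inr ⟨a⁻¹ * b, A.mul_mem (A.inv_mem ha) hb, ?_⟩
          rw [mul_assoc, ← h, inv_mul_cancel_left]
      · rintro (h | ⟨b, hb, h⟩)
        · exact Or.inl ((hI1 a ha z).2 h)
        · exact Or.inr ⟨a * b, A.mul_mem ha hb, by rw [h, mul_assoc]⟩
    · rintro z ⟨h1 | ⟨a, ha, h1⟩, h2 | ⟨b, hb, h2⟩⟩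
      · exact hI2 z ⟨h1, h2⟩
      · apply hnq'
        have h3 : z = (n⁻¹ * b * n) * (n⁻¹ * q) := by
          have : z = n⁻¹ * (n * z) := by group
          rw [this, h2]
          group
        have h4 : n⁻¹ * b * n ∈ A := by
          have := hA.conj_mem b hb n⁻¹
          rwa [inv_inv] at this
        rw [h3] at h1
        exact (hI1 _ h4 _).1 h1
      · apply hnq
        have h3 : n * z = (n * a * n⁻¹) * (n * q) := by
          rw [h1]
          group
        rw [h3] at h2
        exact (hI1 _ (hA.conj_mem a ha n) _).1 h2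
      · apply hn
        have h3 : n = b * a⁻¹ := by
          rw [h1] at h2
          have h4 : n * a = b := by
            rw [← mul_assoc] at h2
            exact mul_right_cancel h2
          rw [← h4]
          group
        rw [h3]
        exact A.mul_mem hb (A.inv_mem ha)
  have h5 : I' ⊆ I := hI.le_of_ge hI' Set.subset_union_left
  apply hq
  apply h5
  exact Or.inr ⟨1, A.one_mem, by rw [one_mul]⟩

variable (A : ℕ → Subgroup G) (n : ℕ → G)

/-- The closed invariant set of configurations. -/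
def Zc : Set (Cfg G) := {y | ∀ i, (∀ a ∈ A i, ∀ q, y i (a * q) = y i q) ∧
  (∀ q, ¬ (y i q = true ∧ y i (n i * q) = true)) ∧
  ∀ q, y i q = true ∨ y i (n i * q) = true ∨ y i ((n i)⁻¹ * q) = true}

theorem isClosed_Zc : IsClosed (Zc A n) := by
  have h1 : Zc A n = ⋂ i, ((⋂ a ∈ A i, ⋂ q, {y : Cfg G | y i (a * q) = y i q}) ∩
      ((⋂ q, {y : Cfg G | ¬ (y i q = true ∧ y i (n i * q) = true)}) ∩
      ⋂ q, {y : Cfg G | y i q = true ∨ y i (n i * q) = true ∨ y i ((n i)⁻¹ * q) = true})) := by
    ext y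
    simp only [Zc, Set.mem_ofPred_eq, Set.mem_iInter, Set.mem_inter_iff]
  rw [h1]
  refine isClosed_iInter fun i => IsClosed.inter ?_ (IsClosed.inter ?_ ?_)
  · refine isClosed_biInter fun a _ => isClosed_iInter fun q => ?_
    exact isClosed_eq (continuous_coord i _) (continuous_coord i _)
  · refine isClosed_iInter fun q => ?_
    have hc : Continuous fun y : Cfg G => (y i q, y i (n i * q)) :=
      (continuous_coord i _).prodMk (continuous_coord i _)
    exact (isClosed_discrete {p : Bool × Bool | ¬ (p.1 = true ∧ p.2 = true)}).preimage hc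
  · refine isClosed_iInter fun q => ?_
    have hc : Continuous fun y : Cfg G => (y i q, y i (n i * q), y i ((n i)⁻¹ * q)) :=
      (continuous_coord i _).prodMk ((continuous_coord i _).prodMk (continuous_coord i _))
    exact (isClosed_discrete
      {p : Bool × Bool × Bool | p.1 = true ∨ p.2.1 = true ∨ p.2.2 = true}).preimage hc

theorem inv_Zc (g : G) (y : Cfg G) (hy : y ∈ Zc A n) : g • y ∈ Zc A n := by
  intro i
  obtain ⟨h1, h2, h3⟩ := hy i
  refine ⟨fun a ha q => ?_, fun q => ?_, fun q => ?_⟩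
  · rw [smul_apply, smul_apply, mul_assoc]
    exact h1 a ha _
  · rw [smul_apply, smul_apply, mul_assoc]
    exact h2 _
  · rw [smul_apply, smul_apply, smul_apply, mul_assoc, mul_assoc]
    exact h3 _

theorem nonempty_Zc (hA : ∀ i, (A i).Normal) (hn : ∀ i, n i ∉ A i) : (Zc A n).Nonempty := by
  classical
  choose I h1 h2 h3 using fun i => exists_indep (A i) (hA i) (n i) (hn i)
  refine ⟨fun i q => decide (q ∈ I i), fun i => ⟨fun a ha q => ?_, fun q => ?_, fun q => ?_⟩⟩
  · have := h1 i a ha q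
    simp only [this]
  · have := h2 i q
    simpa only [decide_eq_true_eq] using this
  · have := h3 i q
    simpa only [decide_eq_true_eq] using this

/-- The common construction: a minimal flow of configurations. -/
theorem exists_flow (hA : ∀ i, (A i).Normal) (hn : ∀ i, n i ∉ A i) :
    ∃ M : SubMulAction G (Cfg G), IsClosed (M : Set (Cfg G)) ∧ (M : Set (Cfg G)).Nonempty ∧
      (M : Set (Cfg G)) ⊆ Zc A n ∧
      ∀ M' ⊆ (M : Set (Cfg G)), IsClosed M' → M'.Nonempty →
        (∀ (g : G), ∀ y ∈ M', g • y ∈ M') → M' = (M : Set (Cfg G)) := by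
  obtain ⟨M, h1, h2, h3, h4, h5⟩ := exists_minimal_sub (G := G) (Zc A n) (isClosed_Zc A n)
    (nonempty_Zc A n hA hn) (inv_Zc A n)
  exact ⟨⟨M, fun g y hy => h4 g y hy⟩, h2, h3, h1, h5⟩

theorem continuousConstSMul_sub (M : SubMulAction G (Cfg G)) : ContinuousConstSMul G M where
  continuous_const_smul g := by
    refine Continuous.subtype_mk ?_ _
    exact (continuous_const_smul g).comp continuous_subtype_val

theorem isMinimal_sub (M : SubMulAction G (Cfg G)) (hMc : IsClosed (M : Set (Cfg G)))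
    (hM : ∀ M' ⊆ (M : Set (Cfg G)), IsClosed M' → M'.Nonempty →
        (∀ (g : G), ∀ y ∈ M', g • y ∈ M') → M' = (M : Set (Cfg G))) :
    MulAction.IsMinimal G M := by
  refine ⟨fun x => ?_⟩
  have h1 : closure (MulAction.orbit G (x : Cfg G)) = (M : Set (Cfg G)) := by
    apply hM
    · apply closure_minimal _ hMc
      rintro _ ⟨g, rfl⟩
      exact M.smul_mem g x.2
    · exact isClosed_closure
    · exact ⟨x, subset_closure (MulAction.mem_orbit_self _)⟩
    · intro g y hy
      have h2 : closure (MulAction.orbit G (x : Cfg G)) ⊆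
          (fun z => g • z) ⁻¹' closure (MulAction.orbit G (x : Cfg G)) := by
        apply closure_minimal _ (isClosed_closure.preimage (continuous_const_smul g))
        rintro _ ⟨h, rfl⟩
        apply subset_closure
        exact ⟨g * h, mul_smul g h _⟩
      exact h2 hy
  intro z
  rw [mem_closure_iff]
  intro O hO hz
  obtain ⟨O', hO', rfl⟩ := isOpen_induced_iff.1 hO
  have h3 : (z : Cfg G) ∈ closure (MulAction.orbit G (x : Cfg G)) := by
    rw [h1]
    exact z.2
  obtain ⟨w, hw1, ⟨g, hg⟩⟩ := mem_closure_iff.1 h3 O' hO' hz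
  refine ⟨g • x, ?_, ⟨g, rfl⟩⟩
  have h4 : ((g • x : M) : Cfg G) = w := hg
  change ((g • x : M) : Cfg G) ∈ O'
  rw [h4]
  exact hw1

/-- Elements of `A j` act trivially on the coordinate `j`. -/
theorem smul_coord (hA : ∀ i, (A i).Normal) (y : Cfg G) (hy : y ∈ Zc A n) (j : ℕ) (a : G)
    (ha : a ∈ A j) : (a • y) j = y j := by
  funext q
  rw [smul_apply]
  have h1 : q * a = (q * a * q⁻¹) * q := by group
  rw [h1]
  exact (hy j).1 _ ((hA j).conj_mem a ha q) q

/-- The inverse of `n i` moves the configuration out of the set `y i 1 = true`. -/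
theorem smul_out (y : Cfg G) (hy : y ∈ Zc A n) (i : ℕ) (h : y i 1 = true) :
    ¬ (((n i)⁻¹ • y) i 1 = true) := by
  rw [smul_apply, one_mul]
  intro h'
  apply (hy i).2.1 (n i)⁻¹
  refine ⟨h', ?_⟩
  rw [mul_inv_cancel]
  exact h

/-- **Chains of normal subgroups.** -/
theorem good_of_normal_seq (hA : ∀ i, (A i).Normal) (hn : ∀ i, n i ∉ A i)
    (h : (∀ i j, j < i → n i ∈ A j) ∨ ∀ i j, i < j → n i ∈ A j) : Good G := by
  classical
  obtain ⟨M, hMc, hMn, hMZ, hMm⟩ := exists_flow A n hA hn
  have := continuousConstSMul_sub M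
  have := isMinimal_sub M hMc hMm
  have : CompactSpace M := isCompact_iff_compactSpace.1 hMc.isCompact
  have : Nonempty M := by
    obtain ⟨y, hy⟩ := hMn
    exact ⟨⟨y, hy⟩⟩
  let F : ℕ → Set M := fun i => {x | (x : Cfg G) i 1 = true}
  have hcont : ∀ i, Continuous fun x : M => (x : Cfg G) i 1 :=
    fun i => (continuous_coord i 1).comp continuous_subtype_val
  have hFo : ∀ i, IsOpen (F i) := fun i => (isOpen_discrete {true}).preimage (hcont i)
  have hFc : ∀ i, IsClosed (F i) := fun i => (isClosed_discrete {true}).preimage (hcont i)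
  have hFn : ∀ i, (F i).Nonempty := by
    intro i
    obtain ⟨x⟩ := ‹Nonempty M›
    have hx := (hMZ x.2 i).2.2 1
    rcases hx with hx | hx | hx
    · exact ⟨x, hx⟩
    · refine ⟨n i • x, ?_⟩
      change (x : Cfg G) i (1 * n i) = true
      rw [one_mul, ← mul_one (n i)]
      exact hx
    · refine ⟨(n i)⁻¹ • x, ?_⟩
      change (x : Cfg G) i (1 * (n i)⁻¹) = true
      rw [one_mul, ← mul_one (n i)⁻¹]
      exact hx
  have hout : ∀ i (x : M), ∃ y : M, y ∉ F i ∧
      (y = x ∨ y = (n i)⁻¹ • x) := by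
    intro i x
    by_cases hx : x ∈ F i
    · exact ⟨(n i)⁻¹ • x, smul_out A n (x : Cfg G) (hMZ x.2) i hx, Or.inr rfl⟩
    · exact ⟨x, hx, Or.inl rfl⟩
  have hcoord : ∀ i j (x y : M), n i ∈ A j → (y = x ∨ y = (n i)⁻¹ • x) →
      (x : Cfg G) j = (y : Cfg G) j := by
    intro i j x y hij hy
    rcases hy with rfl | rfl
    · rfl
    · exact (smul_coord A n hA (x : Cfg G) (hMZ x.2) j (n i)⁻¹ ((A j).inv_mem hij)).symm
  rcases h with h | h
  · let E : ℕ → Setoid M := fun m =>
      { r := fun x y => ∀ j < m, (x : Cfg G) j = (y : Cfg G) j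
        iseqv := ⟨fun _ _ _ => rfl, fun h j hj => (h j hj).symm,
          fun h h' j hj => (h j hj).trans (h' j hj)⟩ }
    refine good_of_tower (G := G) (X := M) E ?_ ?_ F F hFc hFo hFn (fun _ => subset_rfl) ?_ ?_
    · intro m x y hxy j hj
      exact hxy j (by omega)
    · intro m g x y hxy j hj
      funext q
      change (x : Cfg G) j (q * g) = (y : Cfg G) j (q * g)
      rw [hxy j hj]
    · intro m x y hxy hx
      change (y : Cfg G) m 1 = true
      rw [← hxy m (by omega)]
      exact hx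
    · intro m x
      obtain ⟨y, hy1, hy2⟩ := hout m x
      exact ⟨y, fun j hj => hcoord m j x y (h m j hj) hy2, hy1⟩
  · let E : ℕ → Setoid M := fun m =>
      { r := fun x y => ∀ j, m ≤ j → (x : Cfg G) j = (y : Cfg G) j
        iseqv := ⟨fun _ _ _ => rfl, fun h j hj => (h j hj).symm,
          fun h h' j hj => (h j hj).trans (h' j hj)⟩ }
    refine good_of_cotower (G := G) (X := M) E ?_ ?_ F F hFc hFo hFn (fun _ => subset_rfl) ?_ ?_
    · intro m x y hxy j hj
      exact hxy j (by omega)
    · intro m g x y hxy j hj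
      funext q
      change (x : Cfg G) j (q * g) = (y : Cfg G) j (q * g)
      rw [hxy j hj]
    · intro m x y hxy hx
      change (y : Cfg G) m 1 = true
      rw [← hxy m (by omega)]
      exact hx
    · intro m x
      obtain ⟨y, hy1, hy2⟩ := hout m x
      exact ⟨y, fun j hj => hcoord m j x y (h m j (by omega)) hy2, hy1⟩

end configurations

end Pool.Agent.Helper56_Tow
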