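import Pool.Agent.Helper56_Tow.Chain
import Pool.Agent.Helper34_Synd.Finite
import Pool.Agent.Helper34_Synd.Normal

/-!
# Reduction to simple groups
-/

set_option autoImplicit false

open scoped BigOperators Pointwise

namespace Pool.Agent.Helper56_Tow

open Pool.Agent.Helper34_Synd

universe u

/-- The converse of `hasSyndeticSubmeasure_of_good`. -/
theorem good_of_hasSyndeticSubmeasure {G : Type*} [Group G] [Infinite G]
    (h : HasSyndeticSubmeasure G) : Good G := by
  classical
  obtain ⟨μ, h01, h0, h1, hmono, hsub, hinv, hsyn⟩ := h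
  have hcard : (1 : ℝ) / (Nat.card G : ℝ) = 0 := by
    rw [Nat.card_eq_zero_of_infinite]
    simp
  have hex : ∀ n : ℕ, ∃ B : Set G, μ B < (1 / 2 : ℝ) ^ n ∧
      ∃ F : Finset G, ∀ g : G, ∃ f ∈ F, ∃ b ∈ B, g = f * b := by
    intro n
    obtain ⟨B, -, hB, hF⟩ := hsyn ∅ (by rw [h0]; exact one_pos) ((1 / 2 : ℝ) ^ n)
      (by rw [hcard]; positivity)
    exact ⟨B, hB, hF⟩
  choose B hB hBF using hex
  refine ⟨B, fun n => ?_, fun T hT => ?_⟩
  · obtain ⟨F, hF⟩ := hBF n
    refine ⟨F, fun g => ?_⟩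
    obtain ⟨f, hf, b, hb, rfl⟩ := hF g
    exact ⟨f, hf, by rwa [inv_mul_cancel_left]⟩
  · -- the union of the translates has submeasure less than one
    have hU : ∀ T : Finset (G × ℕ), μ (⋃ p ∈ T, (fun y => p.1 * y) '' B p.2) ≤
        ∑ p ∈ T, (1 / 2 : ℝ) ^ p.2 := by
      intro T
      induction T using Finset.induction_on with
      | empty => simp [h0]
      | insert p T hp ih =>
        rw [Finset.set_biUnion_insert, Finset.sum_insert hp]
        refine (hsub _ _).trans (add_le_add ?_ ih)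
        rw [hinv]
        exact (hB p.2).le
    obtain ⟨C, hC, -, F, hF⟩ := hsyn (⋃ p ∈ T, (fun y => p.1 * y) '' B p.2)
      ((hU T).trans_lt hT) 1 (by rw [hcard]; exact one_pos)
    refine ⟨F.image (fun f => f⁻¹), fun y => ?_⟩
    obtain ⟨f, hf, c, hc, rfl⟩ := hF y
    refine ⟨f⁻¹, Finset.mem_image_of_mem _ hf, fun p hp hmem => ?_⟩
    rw [inv_mul_cancel_left] at hmem
    apply hC hc
    simp only [Set.mem_iUnion]
    exact ⟨p, hp, p.1⁻¹ * c, hmem, mul_inv_cancel_left _ _⟩

/-- Subgroups of finite index. -/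
theorem good_of_finiteIndex {G : Type*} [Group G] (H : Subgroup G) [H.FiniteIndex]
    (h : Good H) : Good G := by
  classical
  obtain ⟨B, h1, h2⟩ := h
  have : Fintype (G ⧸ H) := Fintype.ofFinite _
  -- finitely many elements bring every `y` into `H`
  have hD : ∃ D : Finset G, ∀ y : G, ∃ d ∈ D, d * y ∈ H := by
    refine ⟨Finset.univ.image (fun q : G ⧸ H => (q.out)⁻¹), fun y => ?_⟩
    refine ⟨((y : G ⧸ H).out)⁻¹, Finset.mem_image_of_mem _ (Finset.mem_univ _), ?_⟩
    exact QuotientGroup.eq.1 (QuotientGroup.out_eq' (y : G ⧸ H))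
  obtain ⟨D, hD⟩ := hD
  refine ⟨fun n => Subtype.val '' (B n), ?_, ?_⟩
  · intro n
    obtain ⟨F, hF⟩ := h1 n
    refine ⟨(D ×ˢ F).image (fun p => p.1⁻¹ * (p.2 : G)), fun g => ?_⟩
    obtain ⟨d, hd, hdg⟩ := hD g
    obtain ⟨f, hf, hfB⟩ := hF ⟨d * g, hdg⟩
    refine ⟨d⁻¹ * (f : G), Finset.mem_image.2 ⟨(d, f), Finset.mem_product.2 ⟨hd, hf⟩, rfl⟩, ?_⟩
    refine ⟨f⁻¹ * ⟨d * g, hdg⟩, hfB, ?_⟩
    change (f : G)⁻¹ * (d * g) = (d⁻¹ * (f : G))⁻¹ * g
    group
  · intro T hT
    let T' : Finset (H × ℕ) := (T.filter (fun p => p.1 ∈ H)).attach.image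
      (fun p => ((⟨p.1.1, (Finset.mem_filter (p := fun q : G × ℕ => q.1 ∈ H)).1 p.2 |>.2⟩ : H),
        p.1.2))
    have hT' : ∑ p ∈ T', (1 / 2 : ℝ) ^ p.2 < 1 := by
      refine lt_of_le_of_lt ?_ hT
      have e1 : ∑ p ∈ T'.image (fun p : H × ℕ => ((p.1 : G), p.2)), (1 / 2 : ℝ) ^ p.2 =
          ∑ p ∈ T', (1 / 2 : ℝ) ^ p.2 :=
        Finset.sum_image (f := fun p : G × ℕ => (1 / 2 : ℝ) ^ p.2) (s := T')
          (g := fun p : H × ℕ => ((p.1 : G), p.2)) (by
          rintro ⟨a, m⟩ _ ⟨b, l⟩ _ hab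
          simp only [Prod.mk.injEq] at hab
          exact Prod.ext (Subtype.ext hab.1) hab.2)
      rw [← e1]
      refine Finset.sum_le_sum_of_subset_of_nonneg ?_ (fun _ _ _ => by positivity)
      intro p hp
      obtain ⟨q, hq, rfl⟩ := Finset.mem_image.1 hp
      obtain ⟨r, _, rfl⟩ := Finset.mem_image.1 hq
      exact (Finset.mem_filter.1 r.2).1
    obtain ⟨K, hK⟩ := h2 T' hT'
    refine ⟨(K ×ˢ D).image (fun p => (p.1 : G) * p.2), fun y => ?_⟩
    obtain ⟨d, hd, hdy⟩ := hD y
    obtain ⟨k, hk, hk'⟩ := hK ⟨d * y, hdy⟩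
    refine ⟨(k : G) * d, Finset.mem_image.2 ⟨(k, d), Finset.mem_product.2 ⟨hk, hd⟩, rfl⟩, ?_⟩
    rintro p hp ⟨b, hb, hbe⟩
    have hbe' : (b : G) = p.1⁻¹ * ((k : G) * d * y) := hbe
    have hpH : p.1 ∈ H := by
      have h3 : p.1 = (k : G) * (d * y) * (b : G)⁻¹ := by
        rw [hbe']
        group
      rw [h3]
      exact H.mul_mem (H.mul_mem k.2 hdy) (H.inv_mem b.2)
    have hpT' : ((⟨p.1, hpH⟩, p.2) : H × ℕ) ∈ T' := by
      refine Finset.mem_image.2 ⟨⟨p, Finset.mem_filter.2 ⟨hp, hpH⟩⟩, Finset.mem_attach _ _, rfl⟩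
    apply hk' _ hpT'
    have h4 : (⟨p.1, hpH⟩ : H)⁻¹ * (k * ⟨d * y, hdy⟩) = b := by
      apply Subtype.ext
      change p.1⁻¹ * ((k : G) * (d * y)) = (b : G)
      rw [hbe', mul_assoc]
    change (⟨p.1, hpH⟩ : H)⁻¹ * (k * ⟨d * y, hdy⟩) ∈ B p.2
    rw [h4]
    exact hb

/-- An infinite strictly increasing sequence of normal subgroups. -/
theorem good_of_strictMono {G : Type*} [Group G] (N : ℕ → Subgroup G) (hN : ∀ i, (N i).Normal)
    (h : ∀ i, N i < N (i + 1)) : Good G := by
  have hmono : Monotone N := monotone_nat_of_le_succ fun i => (h i).le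
  choose n hn1 hn2 using fun i => SetLike.exists_of_lt (h i)
  exact good_of_normal_seq N n hN hn2 (Or.inr fun i j hij => hmono hij (hn1 i))

/-- An infinite strictly decreasing sequence of normal subgroups. -/
theorem good_of_strictAnti {G : Type*} [Group G] (N : ℕ → Subgroup G) (hN : ∀ i, (N i).Normal)
    (h : ∀ i, N (i + 1) < N i) : Good G := by
  have hanti : Antitone N := antitone_nat_of_succ_le fun i => (h i).le
  choose n hn1 hn2 using fun i => SetLike.exists_of_lt (h i)
  exact good_of_normal_seq (fun i => N (i + 1)) n (fun i => hN _) hn2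
    (Or.inl fun i j hij => hanti (by omega : j + 1 ≤ i) (hn1 i))

theorem exists_maximal_normal {G : Type*} [Group G] (hG : ¬ Good G) (P : Subgroup G → Prop)
    (N₀ : Subgroup G) (hN₀ : N₀.Normal) (hP : P N₀) :
    ∃ N : Subgroup G, N.Normal ∧ P N ∧ ∀ N' : Subgroup G, N'.Normal → P N' → ¬ N < N' := by
  by_contra hcon
  push Not at hcon
  apply hG
  choose nx h1 h2 h3 using hcon
  let f : ℕ → {N : Subgroup G // N.Normal ∧ P N} := fun m =>
    Nat.rec ⟨N₀, hN₀, hP⟩ (fun _ N => ⟨nx N.1 N.2.1 N.2.2, h1 _ _ _, h2 _ _ _⟩) m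
  exact good_of_strictMono (fun m => (f m).1) (fun m => (f m).2.1)
    (fun m => h3 (f m).1 (f m).2.1 (f m).2.2)

theorem exists_minimal_normal {G : Type*} [Group G] (hG : ¬ Good G) (P : Subgroup G → Prop)
    (N₀ : Subgroup G) (hN₀ : N₀.Normal) (hP : P N₀) :
    ∃ N : Subgroup G, N.Normal ∧ P N ∧ ∀ N' : Subgroup G, N'.Normal → P N' → ¬ N' < N := by
  by_contra hcon
  push Not at hcon
  apply hG
  choose nx h1 h2 h3 using hcon
  let f : ℕ → {N : Subgroup G // N.Normal ∧ P N} := fun m =>
    Nat.rec ⟨N₀, hN₀, hP⟩ (fun _ N => ⟨nx N.1 N.2.1 N.2.2, h1 _ _ _, h2 _ _ _⟩) m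
  exact good_of_strictAnti (fun m => (f m).1) (fun m => (f m).2.1)
    (fun m => h3 (f m).1 (f m).2.1 (f m).2.2)

/-- An infinite group which is not good has an infinite quotient which is not good and all of
whose nontrivial normal subgroups have finite index. -/
theorem exists_just_infinite {G : Type*} [Group G] [Infinite G] (hG : ¬ Good G) :
    ∃ N : Subgroup G, ∃ _ : N.Normal, Infinite (G ⧸ N) ∧ ¬ Good (G ⧸ N) ∧
      ∀ K : Subgroup (G ⧸ N), K.Normal → K ≠ ⊥ → K.index ≠ 0 := by
  obtain ⟨N, hN, hNi, hNm⟩ := exists_maximal_normal hG (fun N => N.index = 0) ⊥ inferInstance (by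
    rw [Subgroup.index_bot]
    exact Nat.card_eq_zero_of_infinite)
  have := hN
  refine ⟨N, hN, ?_, ?_, ?_⟩
  · have h1 : Nat.card (G ⧸ N) = 0 := hNi
    rcases Nat.card_eq_zero.1 h1 with h | h
    · exact absurd (inferInstance : Nonempty (G ⧸ N)) (not_nonempty_iff.2 h)
    · exact h
  · exact fun h => hG (good_of_surjective (QuotientGroup.mk' N) (QuotientGroup.mk'_surjective N) h)
  · intro K hK hKb hKi
    refine hNm (K.comap (QuotientGroup.mk' N)) (hK.comap _) ?_ ?_
    · rw [Subgroup.index_comap_of_surjective _ (QuotientGroup.mk'_surjective N)]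
      exact hKi
    · have h2 : N ≤ K.comap (QuotientGroup.mk' N) := by
        intro x hx
        rw [Subgroup.mem_comap, QuotientGroup.mk'_apply, (QuotientGroup.eq_one_iff x).2 hx]
        exact K.one_mem
      refine lt_of_le_of_ne h2 fun h3 => hKb ?_
      rw [eq_bot_iff]
      intro z hz
      obtain ⟨x, rfl⟩ := QuotientGroup.mk'_surjective N z
      have h4 : x ∈ N := by
        rw [h3]
        exact hz
      rw [QuotientGroup.mk'_apply, (QuotientGroup.eq_one_iff x).2 h4]
      exact (⊥ : Subgroup (G ⧸ N)).one_mem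

/-- **Reduction to simple groups.** -/
theorem good_of_simple_quotients (G : Type u) [Group G] [Infinite G]
    (h : ∀ (H : Subgroup G), H.Normal → H.FiniteIndex → ∀ (S : Type u) [Group S] (π : H →* S),
      Function.Surjective π → IsSimpleGroup S → Infinite S → Good S) : Good G := by
  classical
  by_contra hG
  obtain ⟨N, hN, hQi, hQ, hQn⟩ := exists_just_infinite hG
  have := hN
  have := hQi
  -- the finite residual
  obtain ⟨R, hR, hRi, hRm⟩ := exists_minimal_normal hQ (fun K => K.index ≠ 0) ⊤ inferInstance (by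
    rw [Subgroup.index_top]
    exact one_ne_zero)
  have := hR
  have hRf : R.FiniteIndex := ⟨hRi⟩
  have hRg : ¬ Good R := fun h => hQ (good_of_finiteIndex R h)
  have hRinf : Infinite R := by
    have h1 := R.card_mul_index
    rw [Nat.card_eq_zero_of_infinite (α := G ⧸ N)] at h1
    rcases Nat.mul_eq_zero.1 h1 with h2 | h2
    · rcases Nat.card_eq_zero.1 h2 with h3 | h3
      · exact absurd (inferInstance : Nonempty R) (not_nonempty_iff.2 h3)
      · exact h3
    · exact absurd h2 hRi
  -- `R` has no proper subgroup of finite index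
  have hRt : ∀ K : Subgroup R, K.index ≠ 0 → K = ⊤ := by
    intro K hK
    have h1 : (K.map R.subtype).index ≠ 0 := by
      rw [Subgroup.index_map_subtype]
      exact mul_ne_zero hK hRi
    have : (K.map R.subtype).FiniteIndex := ⟨h1⟩
    have h2 : (K.map R.subtype).normalCore.index ≠ 0 :=
      (inferInstance : (K.map R.subtype).normalCore.FiniteIndex).index_ne_zero
    have h3 : (K.map R.subtype).normalCore ≤ R :=
      (Subgroup.normalCore_le _).trans (Subgroup.map_subtype_le K)
    have h4 : (K.map R.subtype).normalCore = R := by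
      by_contra hne
      exact hRm _ (Subgroup.normalCore_normal _) h2 (lt_of_le_of_ne h3 hne)
    have h5 : R ≤ K.map R.subtype := by
      conv_lhs => rw [← h4]
      exact Subgroup.normalCore_le _
    rw [eq_top_iff]
    intro r _
    obtain ⟨k, hk, hkr⟩ := h5 r.2
    have : k = r := Subtype.ext hkr
    rwa [← this]
  obtain ⟨S, hS, hSi, hSg, hSn⟩ := exists_just_infinite hRg
  have := hS
  have := hSi
  have hsimple : IsSimpleGroup (R ⧸ S) :=
    { exists_pair_ne := exists_pair_ne (R ⧸ S)
      eq_bot_or_eq_top_of_normal := by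
        intro K hK
        by_cases hKb : K = ⊥
        · exact Or.inl hKb
        · right
          have h1 := hSn K hK hKb
          have h2 : (K.comap (QuotientGroup.mk' S)).index ≠ 0 := by
            rw [Subgroup.index_comap_of_surjective _ (QuotientGroup.mk'_surjective S)]
            exact h1
          have h3 := hRt _ h2
          rw [eq_top_iff]
          intro z _
          obtain ⟨x, rfl⟩ := QuotientGroup.mk'_surjective S z
          have h4 : x ∈ K.comap (QuotientGroup.mk' S) := by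
            rw [h3]
            exact Subgroup.mem_top x
          exact h4 }
  apply hSg
  let f : G →* G ⧸ N := QuotientGroup.mk' N
  have hf : Function.Surjective f := QuotientGroup.mk'_surjective N
  refine h (R.comap f) (hR.comap f) ⟨?_⟩ (R ⧸ S)
    ((QuotientGroup.mk' S).comp (f.subgroupComap R)) ?_ hsimple hSi
  · rw [Subgroup.index_comap_of_surjective _ hf]
    exact hRi
  · exact (QuotientGroup.mk'_surjective S).comp
      (MonoidHom.subgroupComap_surjective_of_surjective f R hf)

/-- The same with left-invariant syndetic submeasures and uncountable simple quotients. -/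
theorem hasSyndeticSubmeasure_of_simple_quotients (G : Type u) [Group G]
    (h : ∀ (H : Subgroup G), H.Normal → H.FiniteIndex → ∀ (S : Type u) [Group S] (π : H →* S),
      Function.Surjective π → IsSimpleGroup S → Uncountable S → HasSyndeticSubmeasure S) :
    HasSyndeticSubmeasure G := by
  rcases finite_or_infinite G with hf | hi
  · exact hasSyndeticSubmeasure_of_finite
  · apply hasSyndeticSubmeasure_of_good'
    refine good_of_simple_quotients G fun H hH hHf S _ π hπ hS hSi => ?_
    by_cases hc : Countable S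
    · have : Infinite (⊤ : Subgroup S) := by
        have e : (⊤ : Subgroup S) ≃* S := Subgroup.topEquiv
        exact Infinite.of_injective e.symm e.symm.injective
      exact good_of_normal_countable (⊤ : Subgroup S)
    · exact good_of_hasSyndeticSubmeasure
        (h H hH hHf S π hπ hS (not_countable_iff.1 hc))

end Pool.Agent.Helper56_Tow
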