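import Pool.Agent.Helper34_Synd.Flow

/-!
# Towers of minimal flows and the density of minimal flows

An infinite tower of minimal flows without irreducible bonding maps gives a left-invariant
syndetic submeasure; so does a minimal flow whose π-weight is larger than the cardinality of the
group.
-/

set_option autoImplicit false

open scoped BigOperators Pointwise Topology

namespace Pool.Agent.Helper56_Tow

open Pool.Agent.Helper34_Synd

section tower

variable {G X : Type*} [Group G] [TopologicalSpace X] [MulAction G X]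

/-- Successive choice of points: the translate number `i` is avoided inside a class of the `i`-th
relation. -/
theorem tower_aux (E : ℕ → Setoid X) (hE : ∀ n x y, (E (n + 1)).r x y → (E n).r x y)
    (hinv : ∀ n (g : G) x y, (E n).r x y → (E n).r (g • x) (g • y))
    (F : ℕ → Set X) (hsat : ∀ n x y, (E (n + 1)).r x y → x ∈ F n → y ∈ F n)
    (hno : ∀ n x, ∃ y, (E n).r x y ∧ y ∉ F n) (γ : ℕ → G) (C : ℕ → Set X)
    (hC : ∀ n i, i ≤ 2 ^ n → ∀ x ∈ closure (C n), (γ i)⁻¹ • x ∈ F i) (r : ℕ) :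
    ∀ T : Finset (G × ℕ), T.card = r →
      (∀ n, (T.filter (fun p => p.2 ≤ n)).card ≤ 2 ^ n) → Nonempty X →
      ∃ x, ∀ z, (E r).r x z → ∀ p ∈ T, p.1⁻¹ • z ∉ closure (C p.2) := by
  classical
  induction r with
  | zero =>
    intro T hT _ hX
    obtain ⟨x⟩ := hX
    rw [Finset.card_eq_zero] at hT
    subst hT
    exact ⟨x, fun z _ p hp => absurd hp (Finset.notMem_empty p)⟩
  | succ r ih =>
    intro T hT hH hX
    have hne : T.Nonempty := by
      rw [← Finset.card_pos, hT]
      exact Nat.succ_pos r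
    obtain ⟨q, hq, hmax⟩ := T.exists_max_image (fun p => p.2) hne
    have hcard : (T.erase q).card = r := by
      rw [Finset.card_erase_of_mem hq, hT]
      rfl
    obtain ⟨x', hx'⟩ := ih (T.erase q) hcard (fun n => by
      refine le_trans (Finset.card_le_card ?_) (hH n)
      exact Finset.filter_subset_filter _ (Finset.erase_subset q T)) hX
    have hrle : r ≤ 2 ^ q.2 := by
      have h1 : T.filter (fun p => p.2 ≤ q.2) = T := by
        rw [Finset.filter_eq_self]
        exact hmax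
      have h2 := hH q.2
      rw [h1, hT] at h2
      omega
    obtain ⟨y, hy1, hy2⟩ := hno r ((q.1 * γ r)⁻¹ • x')
    refine ⟨(q.1 * γ r) • y, fun z hz p hp => ?_⟩
    have hx'y : (E r).r x' ((q.1 * γ r) • y) := by
      have := hinv r (q.1 * γ r) _ _ hy1
      rwa [smul_inv_smul] at this
    by_cases hpq : p = q
    · subst hpq
      intro hmem
      have h3 := hC p.2 r hrle _ hmem
      have h4 : (E (r + 1)).r y ((p.1 * γ r)⁻¹ • z) := by
        have := hinv (r + 1) (p.1 * γ r)⁻¹ _ _ hz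
        rwa [inv_smul_smul] at this
      apply hy2
      apply hsat r _ _ ((E (r + 1)).iseqv.symm h4)
      rw [mul_inv_rev, mul_smul]
      exact h3
    · exact hx' z ((E r).iseqv.trans hx'y (hE r _ _ hz)) p (Finset.mem_erase.2 ⟨hpq, hp⟩)

/-- Successive choice of points in the opposite order: the translate number `i` is avoided inside a
class of the relation number `i + 1`. -/
theorem cotower_aux (E : ℕ → Setoid X) (hE : ∀ n x y, (E n).r x y → (E (n + 1)).r x y)
    (hinv : ∀ n (g : G) x y, (E n).r x y → (E n).r (g • x) (g • y))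
    (F : ℕ → Set X) (hsat : ∀ n x y, (E n).r x y → x ∈ F n → y ∈ F n)
    (hno : ∀ n x, ∃ y, (E (n + 1)).r x y ∧ y ∉ F n) (γ : ℕ → G) (C : ℕ → Set X)
    (hC : ∀ n i, i ≤ 2 ^ n → ∀ x ∈ closure (C n), (γ i)⁻¹ • x ∈ F i) (r : ℕ) :
    ∀ T : Finset (G × ℕ), T.card = r →
      (∀ n, (T.filter (fun p => p.2 ≤ n)).card ≤ 2 ^ n) → ∀ x : X,
      ∃ x', (E r).r x x' ∧ ∀ p ∈ T, p.1⁻¹ • x' ∉ closure (C p.2) := by
  classical
  induction r with
  | zero =>
    intro T hT _ x
    rw [Finset.card_eq_zero] at hT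
    subst hT
    exact ⟨x, (E 0).iseqv.refl x, fun p hp => absurd hp (Finset.notMem_empty p)⟩
  | succ r ih =>
    intro T hT hH x
    have hne : T.Nonempty := by
      rw [← Finset.card_pos, hT]
      exact Nat.succ_pos r
    obtain ⟨q, hq, hmax⟩ := T.exists_max_image (fun p => p.2) hne
    have hcard : (T.erase q).card = r := by
      rw [Finset.card_erase_of_mem hq, hT]
      rfl
    have hrle : r ≤ 2 ^ q.2 := by
      have h1 : T.filter (fun p => p.2 ≤ q.2) = T := by
        rw [Finset.filter_eq_self]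
        exact hmax
      have h2 := hH q.2
      rw [h1, hT] at h2
      omega
    obtain ⟨y, hy1, hy2⟩ := hno r ((q.1 * γ r)⁻¹ • x)
    have hxy : (E (r + 1)).r x ((q.1 * γ r) • y) := by
      have := hinv (r + 1) (q.1 * γ r) _ _ hy1
      rwa [smul_inv_smul] at this
    obtain ⟨x', hx1, hx2⟩ := ih (T.erase q) hcard (fun n => by
      refine le_trans (Finset.card_le_card ?_) (hH n)
      exact Finset.filter_subset_filter _ (Finset.erase_subset q T)) ((q.1 * γ r) • y)
    refine ⟨x', (E (r + 1)).iseqv.trans hxy (hE r _ _ hx1), fun p hp => ?_⟩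
    by_cases hpq : p = q
    · subst hpq
      intro hmem
      have h3 := hC p.2 r hrle _ hmem
      have h4 : (E r).r y ((p.1 * γ r)⁻¹ • x') := by
        have := hinv r (p.1 * γ r)⁻¹ _ _ hx1
        rwa [inv_smul_smul] at this
      apply hy2
      apply hsat r _ _ ((E r).iseqv.symm h4)
      rw [mul_inv_rev, mul_smul]
      exact h3
    · exact hx2 p (Finset.mem_erase.2 ⟨hpq, hp⟩)

variable [CompactSpace X] [T2Space X] [ContinuousConstSMul G X] [MulAction.IsMinimal G X]

/-- The common part of the criteria. -/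
theorem good_of_killing [Nonempty X] (F W : ℕ → Set X) (hF : ∀ n, IsClosed (F n))
    (hWo : ∀ n, IsOpen (W n)) (hWn : ∀ n, (W n).Nonempty) (hWF : ∀ n, W n ⊆ F n)
    (hkill : ∀ (γ : ℕ → G) (C : ℕ → Set X),
      (∀ n i, i ≤ 2 ^ n → ∀ x ∈ closure (C n), (γ i)⁻¹ • x ∈ F i) →
      ∀ T : Finset (G × ℕ), (∀ n, (T.filter (fun p => p.2 ≤ n)).card ≤ 2 ^ n) →
      ∃ x, ∀ p ∈ T, p.1⁻¹ • x ∉ closure (C p.2)) : Good G := by
  classical
  -- translates with nonempty intersections
  have hstep : ∀ (U : Set X) (n : ℕ), IsOpen U → U.Nonempty →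
      ∃ g : G, (U ∩ {x | g⁻¹ • x ∈ W n}).Nonempty := by
    intro U n hU hUn
    obtain ⟨w, hw⟩ := hWn n
    obtain ⟨g, hg⟩ := (MulAction.IsMinimal.dense_orbit (M := G) w).exists_mem_open hU hUn |>.imp
      (fun x hx => hx)
    obtain ⟨⟨k, rfl⟩, hk⟩ := hg
    exact ⟨k, k • w, hk, by simpa using hw⟩
  choose! nx hnx using hstep
  let St : ℕ → Set X × G := fun n => Nat.rec (W 0, 1)
    (fun m s => (s.1 ∩ {x | (nx s.1 (m + 1))⁻¹ • x ∈ W (m + 1)}, nx s.1 (m + 1))) n
  let U : ℕ → Set X := fun n => (St n).1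
  let γ : ℕ → G := fun n => (St n).2
  have hU0 : U 0 = W 0 := rfl
  have hUs : ∀ n, U (n + 1) = U n ∩ {x | (γ (n + 1))⁻¹ • x ∈ W (n + 1)} := fun n => rfl
  have hγs : ∀ n, γ (n + 1) = nx (U n) (n + 1) := fun n => rfl
  have hUo : ∀ n, IsOpen (U n) := by
    intro n
    induction n with
    | zero => exact hWo 0
    | succ n ih =>
      rw [hUs]
      exact ih.inter ((hWo (n + 1)).preimage (continuous_const_smul _))
  have hUn : ∀ n, (U n).Nonempty := by
    intro n
    induction n with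
    | zero => exact hWn 0
    | succ n ih =>
      rw [hUs, hγs]
      exact hnx (U n) (n + 1) (hUo n) ih
  have hUW : ∀ n i, i ≤ n → ∀ x ∈ U n, (γ i)⁻¹ • x ∈ W i := by
    intro n
    induction n with
    | zero =>
      intro i hi x hx
      obtain rfl : i = 0 := by omega
      have : γ 0 = 1 := rfl
      rw [this, inv_one, one_smul]
      exact hx
    | succ n ih =>
      intro i hi x hx
      rw [hUs] at hx
      rcases Nat.lt_or_ge n i with h | h
      · obtain rfl : i = n + 1 := by omega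
        exact hx.2
      · exact ih i h x hx.1
  refine good_of_flow (fun n => U (2 ^ n)) (fun n => hUo _) (fun n => hUn _) fun T hT => ?_
  have hH : ∀ n, (T.filter (fun p => p.2 ≤ n)).card ≤ 2 ^ n := by
    intro n
    have h1 : ∑ p ∈ T.filter (fun p => p.2 ≤ n), (1 / 2 : ℝ) ^ p.2 ≤
        ∑ p ∈ T, (1 / 2 : ℝ) ^ p.2 :=
      Finset.sum_le_sum_of_subset_of_nonneg (Finset.filter_subset _ _)
        (fun p _ _ => by positivity)
    have h2 : ((T.filter (fun p => p.2 ≤ n)).card : ℝ) * (1 / 2 : ℝ) ^ n ≤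
        ∑ p ∈ T.filter (fun p => p.2 ≤ n), (1 / 2 : ℝ) ^ p.2 := by
      rw [← nsmul_eq_mul]
      refine Finset.card_nsmul_le_sum _ _ _ fun p hp => ?_
      exact pow_le_pow_of_le_one (by norm_num) (by norm_num) (Finset.mem_filter.1 hp).2
    have h3 : ((T.filter (fun p => p.2 ≤ n)).card : ℝ) * (1 / 2 : ℝ) ^ n < 1 := by linarith
    have h4 : (0 : ℝ) < 2 ^ n := by positivity
    have h5 : ((T.filter (fun p => p.2 ≤ n)).card : ℝ) < 2 ^ n := by
      have h6 : (1 / 2 : ℝ) ^ n = (2 ^ n)⁻¹ := by rw [one_div, inv_pow]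
      rw [h6, ← div_eq_mul_inv, div_lt_one h4] at h3
      exact h3
    exact_mod_cast h5.le
  refine hkill γ (fun n => U (2 ^ n)) ?_ T hH
  intro n i hi x hx
  have h1 : closure (U (2 ^ n)) ⊆ {x | (γ i)⁻¹ • x ∈ F i} := by
    apply closure_minimal
    · intro x hx
      exact hWF i (hUW _ i hi x hx)
    · exact (hF i).preimage (continuous_const_smul _)
  exact h1 hx

/-- **Tower criterion.** A minimal flow `X` with a decreasing sequence of invariant equivalence
relations `E n` and nonempty open sets `W n` contained in closed sets `F n` that are saturated for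
`E (n + 1)` and contain no class of `E n`. -/
theorem good_of_tower [Nonempty X] (E : ℕ → Setoid X)
    (hE : ∀ n x y, (E (n + 1)).r x y → (E n).r x y)
    (hinv : ∀ n (g : G) x y, (E n).r x y → (E n).r (g • x) (g • y))
    (F W : ℕ → Set X) (hF : ∀ n, IsClosed (F n)) (hWo : ∀ n, IsOpen (W n))
    (hWn : ∀ n, (W n).Nonempty) (hWF : ∀ n, W n ⊆ F n)
    (hsat : ∀ n x y, (E (n + 1)).r x y → x ∈ F n → y ∈ F n)
    (hno : ∀ n x, ∃ y, (E n).r x y ∧ y ∉ F n) : Good G := by
  refine good_of_killing F W hF hWo hWn hWF fun γ C hC T hH => ?_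
  obtain ⟨x, hx⟩ := tower_aux E hE hinv F hsat hno γ C hC T.card T rfl hH ‹_›
  exact ⟨x, hx x ((E T.card).iseqv.refl x)⟩

/-- **Dual tower criterion.** A minimal flow `X` with an increasing sequence of invariant
equivalence relations `E n` and nonempty open sets `W n` contained in closed sets `F n` that are
saturated for `E n` and contain no class of `E (n + 1)`. -/
theorem good_of_cotower [Nonempty X] (E : ℕ → Setoid X)
    (hE : ∀ n x y, (E n).r x y → (E (n + 1)).r x y)
    (hinv : ∀ n (g : G) x y, (E n).r x y → (E n).r (g • x) (g • y))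
    (F W : ℕ → Set X) (hF : ∀ n, IsClosed (F n)) (hWo : ∀ n, IsOpen (W n))
    (hWn : ∀ n, (W n).Nonempty) (hWF : ∀ n, W n ⊆ F n)
    (hsat : ∀ n x y, (E n).r x y → x ∈ F n → y ∈ F n)
    (hno : ∀ n x, ∃ y, (E (n + 1)).r x y ∧ y ∉ F n) : Good G := by
  refine good_of_killing F W hF hWo hWn hWF fun γ C hC T hH => ?_
  obtain ⟨x₀⟩ := ‹Nonempty X›
  obtain ⟨x, -, hx⟩ := cotower_aux E hE hinv F hsat hno γ C hC T.card T rfl hH x₀
  exact ⟨x, hx⟩

end tower

section density

variable {G X : Type*} [Group G] [TopologicalSpace X] [MulAction G X]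

/-- Two points are equivalent if the functions in `S` do not distinguish their orbits. -/
def Rl (G : Type*) {X : Type*} [Group G] [TopologicalSpace X] [MulAction G X]
    (S : Set C(X, ℝ)) : Setoid X where
  r x y := ∀ f ∈ S, ∀ g : G, f (g • x) = f (g • y)
  iseqv := ⟨fun _ _ _ _ => rfl, fun h f hf g => (h f hf g).symm,
    fun h h' f hf g => (h f hf g).trans (h' f hf g)⟩

/-- The basic open sets of the factor generated by countably many functions. -/
def Bs (e : ℕ → C(X, ℝ)) (s : Finset (ℕ × G × ℚ × ℚ)) : Set X :=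
  ⋂ q ∈ s, {y | (q.2.2.1 : ℝ) < e q.1 (q.2.1 • y) ∧ e q.1 (q.2.1 • y) < (q.2.2.2 : ℝ)}

variable [CompactSpace X] [T2Space X] [ContinuousConstSMul G X]

omit [T2Space X] in
/-- An open set that contains a class contains a nonempty basic open set. -/
theorem exists_Bs (e : ℕ → C(X, ℝ)) (V : Set X) (hV : IsOpen V) (x : X)
    (hx : ∀ y, (∀ i, ∀ g : G, e i (g • x) = e i (g • y)) → y ∈ V) :
    ∃ s : Finset (ℕ × G × ℚ × ℚ), x ∈ Bs e s ∧ Bs e s ⊆ V := by
  classical
  let ι := {q : ℕ × G × ℚ × ℚ // (q.2.2.1 : ℝ) < e q.1 (q.2.1 • x) ∧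
    e q.1 (q.2.1 • x) < (q.2.2.2 : ℝ)}
  let t : ι → Set X := fun q => {y | (q.1.2.2.1 : ℝ) ≤ e q.1.1 (q.1.2.1 • y) ∧
    e q.1.1 (q.1.2.1 • y) ≤ (q.1.2.2.2 : ℝ)}
  have htc : ∀ q, IsClosed (t q) := by
    intro q
    have hc : Continuous fun y : X => e q.1.1 (q.1.2.1 • y) :=
      (e q.1.1).continuous.comp (continuous_const_smul _)
    exact (isClosed_le continuous_const hc).inter (isClosed_le hc continuous_const)
  have hemp : Vᶜ ∩ ⋂ q, t q = ∅ := by
    rw [Set.eq_empty_iff_forall_notMem]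
    rintro y ⟨hyV, hy⟩
    apply hyV
    apply hx
    intro i g
    rw [Set.mem_iInter] at hy
    by_contra hne
    rcases lt_or_gt_of_ne hne with h | h
    · obtain ⟨b, hb1, hb2⟩ := exists_rat_btwn h
      obtain ⟨a, ha⟩ := exists_rat_lt (e i (g • x))
      have := hy ⟨(i, g, a, b), ha, hb1⟩
      exact absurd this.2 (not_le.2 hb2)
    · obtain ⟨a, ha1, ha2⟩ := exists_rat_btwn h
      obtain ⟨b, hb⟩ := exists_rat_gt (e i (g • x))
      have := hy ⟨(i, g, a, b), ha2, hb⟩
      exact absurd this.1 (not_le.2 ha1)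
  obtain ⟨u, hu⟩ := (hV.isClosed_compl.isCompact).elim_finite_subfamily_closed t htc hemp
  refine ⟨u.image Subtype.val, ?_, ?_⟩
  · simp only [Bs, Set.mem_iInter]
    intro q hq
    obtain ⟨q', _, rfl⟩ := Finset.mem_image.1 hq
    exact q'.2
  · intro y hy
    by_contra hyV
    have h1 : y ∈ Vᶜ ∩ ⋂ q ∈ u, t q := by
      refine ⟨hyV, ?_⟩
      simp only [Set.mem_iInter]
      intro q hq
      simp only [Bs, Set.mem_iInter] at hy
      have := hy q.1 (Finset.mem_image_of_mem _ hq)
      exact ⟨this.1.le, this.2.le⟩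
    rw [hu] at h1
    exact h1

omit [CompactSpace X] [T2Space X] in
theorem isOpen_Bs (e : ℕ → C(X, ℝ)) (s : Finset (ℕ × G × ℚ × ℚ)) : IsOpen (Bs e s : Set X) := by
  refine isOpen_biInter_finset fun q _ => ?_
  have hc : Continuous fun y : X => e q.1 (q.2.1 • y) :=
    (e q.1).continuous.comp (continuous_const_smul _)
  exact (isOpen_lt continuous_const hc).inter (isOpen_lt hc continuous_const)

/-- A surjection from `G` onto the finite sets of data. -/
theorem exists_surj (G : Type*) [Infinite G] :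
    ∃ φ : G → Finset (ℕ × G × ℚ × ℚ), Function.Surjective φ := by
  have h1 : Cardinal.mk (Finset (ℕ × G × ℚ × ℚ)) ≤ Cardinal.mk G := by
    rw [Cardinal.mk_finset_of_infinite]
    simp only [Cardinal.mk_prod, Cardinal.lift_uzero, Cardinal.mk_nat, Cardinal.lift_aleph0,
      Cardinal.mkRat, Cardinal.aleph0_mul_aleph0]
    have h2 : Cardinal.aleph0 ≤ Cardinal.mk G := Cardinal.aleph0_le_mk G
    rw [Cardinal.mul_aleph0_eq h2, Cardinal.aleph0_mul_eq h2]
  obtain ⟨φ⟩ := (Cardinal.le_def _ _).1 h1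
  exact ⟨Function.invFun φ, Function.invFun_surjective φ.injective⟩

omit [T2Space X] in
/-- If no family of nonempty open sets indexed by `G` is a `π`-base then there is a nonempty open
set without classes. -/
theorem exists_open_no_class [Infinite G] [Nonempty X]
    (hπ : ∀ B : G → Set X, (∀ g, IsOpen (B g) ∧ (B g).Nonempty) →
      ∃ O : Set X, IsOpen O ∧ O.Nonempty ∧ ∀ g, ¬ B g ⊆ O) (S : Finset C(X, ℝ)) :
    ∃ V : Set X, IsOpen V ∧ V.Nonempty ∧ ∀ x, ∃ y, (Rl G (S : Set C(X, ℝ))).r x y ∧ y ∉ V := by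
  classical
  obtain ⟨φ, hφ⟩ := exists_surj G
  have hcount : ((insert 0 S : Finset C(X, ℝ)) : Set C(X, ℝ)).Countable :=
    (Finset.finite_toSet _).countable
  obtain ⟨e, he⟩ := hcount.exists_eq_range ⟨0, by simp⟩
  obtain ⟨O, hO1, hO2, hO3⟩ := hπ
    (fun g => if (Bs e (φ g) : Set X).Nonempty then Bs e (φ g) else Set.univ) (by
      intro g
      split_ifs with h
      · exact ⟨isOpen_Bs e _, h⟩
      · exact ⟨isOpen_univ, Set.univ_nonempty⟩)
  refine ⟨O, hO1, hO2, ?_⟩
  by_contra hcon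
  push Not at hcon
  obtain ⟨x, hx⟩ := hcon
  obtain ⟨s, hs1, hs2⟩ := exists_Bs (G := G) e O hO1 x (by
    intro y hy
    apply hx
    intro f hf g
    have hf' : f ∈ ((insert 0 S : Finset C(X, ℝ)) : Set C(X, ℝ)) := by
      simp only [Finset.coe_insert, Set.mem_insert_iff]
      exact Or.inr hf
    rw [he] at hf'
    obtain ⟨i, rfl⟩ := hf'
    exact hy i g)
  obtain ⟨g, rfl⟩ := hφ s
  have hne : (Bs e (φ g) : Set X).Nonempty := ⟨x, hs1⟩
  exact hO3 g (by rw [if_pos hne]; exact hs2)

variable [MulAction.IsMinimal G X]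

/-- **Density criterion.** A group with a minimal flow whose `π`-weight is larger than the
cardinality of the group. -/
theorem good_of_piWeight [Infinite G] [Nonempty X]
    (hπ : ∀ B : G → Set X, (∀ g, IsOpen (B g) ∧ (B g).Nonempty) →
      ∃ O : Set X, IsOpen O ∧ O.Nonempty ∧ ∀ g, ¬ B g ⊆ O) : Good G := by
  classical
  have hstep : ∀ S : Finset C(X, ℝ), ∃ f : C(X, ℝ), (∃ x, 1 / 2 < f x) ∧
      ∀ x, ∃ y, (Rl G (S : Set C(X, ℝ))).r x y ∧ ¬ (1 / 2 ≤ f y) := by
    intro S
    obtain ⟨V, hVo, ⟨v, hv⟩, hV⟩ := exists_open_no_class hπ S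
    obtain ⟨f, hf0, hf1, -⟩ := exists_continuous_zero_one_of_isClosed (X := X)
      hVo.isClosed_compl (isClosed_singleton (x := v)) (by
        rw [Set.disjoint_singleton_right]
        exact fun h => h hv)
    refine ⟨f, ⟨v, ?_⟩, fun x => ?_⟩
    · have := hf1 (Set.mem_singleton v)
      rw [this]
      norm_num
    · obtain ⟨y, hy1, hy2⟩ := hV x
      refine ⟨y, hy1, ?_⟩
      have := hf0 hy2
      rw [this]
      norm_num
  choose nx hnx1 hnx2 using hstep
  let Fs : ℕ → Finset C(X, ℝ) := fun n => Nat.rec ∅ (fun _ s => insert (nx s) s) n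
  have hFs : ∀ n, Fs (n + 1) = insert (nx (Fs n)) (Fs n) := fun n => rfl
  let E : ℕ → Setoid X := fun n => Rl G {f : C(X, ℝ) | f ∈ Fs n}
  refine good_of_tower (X := X) E ?_ ?_
    (fun n => {x | 1 / 2 ≤ nx (Fs n) x}) (fun n => {x | 1 / 2 < nx (Fs n) x}) ?_ ?_ ?_ ?_ ?_ ?_
  · intro n x y h f hf g
    exact h f (Finset.mem_insert_of_mem hf) g
  · intro n g x y h f hf k
    have := h f hf (k * g)
    rwa [mul_smul, mul_smul] at this
  · intro n
    exact isClosed_le continuous_const (nx (Fs n)).continuous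
  · intro n
    exact isOpen_lt continuous_const (nx (Fs n)).continuous
  · intro n
    exact hnx1 (Fs n)
  · intro n x hx
    have hx' : 1 / 2 < nx (Fs n) x := hx
    exact hx'.le
  · intro n x y h hx
    have h1 := h (nx (Fs n)) (Finset.mem_insert_self (nx (Fs n)) (Fs n)) 1
    rw [one_smul, one_smul] at h1
    simp only [Set.mem_ofPred_eq] at hx ⊢
    rw [← h1]
    exact hx
  · intro n x
    exact hnx2 (Fs n) x

end density

end Pool.Agent.Helper56_Tow
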